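import Pool.Agent.MP_ed9623_an.H77.SpecA

/-! Difference quotients in time are Cauchy. -/

open MeasureTheory Filter Topology Set
open scoped ContDiff InnerProductSpace

set_option linter.unusedSectionVars false

namespace Pool.Agent.MP_ed9623_an.H77

namespace Dq2

variable {H V : Type} [NormedAddCommGroup H] [InnerProductSpace ℝ H] [CompleteSpace H]
  [NormedAddCommGroup V] [InnerProductSpace ℝ V] [CompleteSpace V]

theorem yg {c : ℝ} (hc : 0 < c) (x y : ℝ) : 2 * (x * y) ≤ c / 4 * y ^ 2 + 4 / c * x ^ 2 := by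
  have : c / 4 * y ^ 2 + 4 / c * x ^ 2 - 2 * (x * y) = (c * y - 4 * x) ^ 2 / (4 * c) := by
    field_simp
    ring
  have h : 0 ≤ (c * y - 4 * x) ^ 2 / (4 * c) := by positivity
  linarith

theorem sq_sub (x y : V) : ‖x - y‖ ^ 2 ≤ 2 * ‖x‖ ^ 2 + 2 * ‖y‖ ^ 2 := by
  nlinarith [pow_le_pow_left₀ (norm_nonneg _) (norm_sub_le x y) 2, sq_nonneg (‖x‖ - ‖y‖)]

theorem pt (S : St H V) (a a' b p : V) (h h' w : ℝ) {D D' Y : V} (hD : D = h⁻¹ • (a - b))
    (hD' : D' = h'⁻¹ • (a' - b)) (hY : Y = w • (D - D')) :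
    2 * ⟪w • (h⁻¹ • (S.G a - S.G b) - h'⁻¹ • (S.G a' - S.G b)) + p, Y⟫_ℝ ≤ -S.c * ‖Y‖ ^ 2 +
      2 * (S.C ^ 2 / (S.c / 8) ^ 3) * ((‖S.ι a‖ * ‖a‖) ^ 2 + (‖S.ι b‖ * ‖b‖) ^ 2) * ‖S.ι Y‖ ^ 2 +
      4 / S.c * (w ^ 2 * ‖S.B D' (a - a')‖ ^ 2 + ‖p‖ ^ 2) := by
  have e1 : ∀ (k : ℝ) (u : V), k • (S.G u - S.G b) =
      -(S.A (k • (u - b)) + S.B (k • (u - b)) u + S.B b (k • (u - b))) := fun k u => by
    simp only [S.G_sub, map_smul, smul_apply, smul_neg, smul_add]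
  have e2 : w • (h⁻¹ • (S.G a - S.G b) - h'⁻¹ • (S.G a' - S.G b)) =
      -(S.A Y + S.B Y a + S.B b Y + w • S.B D' (a - a')) := by
    rw [e1, e1, ← hD, ← hD', hY]
    simp only [map_smul, map_sub, smul_apply, sub_apply]
    module
  have c8 : 0 < S.c / 8 := by linarith [S.c0]
  have a1 := S.coer Y
  have a2 := (abs_le.1 ((abs_real_inner_le_norm _ _).trans (S.young c8 a Y))).1
  have a3 := (abs_le.1 ((abs_real_inner_le_norm _ _).trans (S.young' c8 b Y))).1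
  have a4 := (abs_le.1 (abs_real_inner_le_norm (w • S.B D' (a - a')) Y)).1
  have a5 := real_inner_le_norm p Y
  have a6 := yg S.c0 ‖w • S.B D' (a - a')‖ ‖Y‖
  have a7 := yg S.c0 ‖p‖ ‖Y‖
  have a8 : ‖w • S.B D' (a - a')‖ ^ 2 = w ^ 2 * ‖S.B D' (a - a')‖ ^ 2 := by
    rw [norm_smul, mul_pow, Real.norm_eq_abs, sq_abs]
  rw [a8] at a6
  rw [e2, inner_add_left, inner_neg_left, inner_add_left, inner_add_left, inner_add_left]
  linarith

theorem shift_le {I : Set ℝ} {Z : ℝ → V} (hZ : Loc2 I Z) {a b a' b' h : ℝ} (ha : a' ∈ I)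
    (hb : b' ∈ I) (h1 : a ≤ b) (h2 : a' ≤ a + h) (h3 : b + h ≤ b') :
    ∫ r in a..b, ‖Z (r + h)‖ ^ 2 ≤ ∫ r in a'..b', ‖Z r‖ ^ 2 := by
  rw [intervalIntegral.integral_comp_add_right (fun r => ‖Z r‖ ^ 2)]
  exact intervalIntegral.integral_mono_interval h2 (by linarith) h3
    (Eventually.of_forall fun _ => sq_nonneg _) (hZ.ii_sq ha hb)

end Dq2

open Dq2 in
theorem rowDq2 : OfDq2 := by
  intro hS hP hW hD H V _ _ _ _ _ _ S I z Z hI hz s hs t ht hst ε hε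
  obtain ⟨δ, hδ, h1, h2⟩ : ∃ δ > 0, s - 2 * δ ∈ I ∧ t + 2 * δ ∈ I := by
    obtain ⟨a, ha, h1⟩ := Metric.isOpen_iff.1 hI.1 s hs
    obtain ⟨b, hb, h2⟩ := Metric.isOpen_iff.1 hI.1 t ht
    have := lt_min ha hb
    have := min_le_left a b
    have := min_le_right a b
    refine ⟨min a b / 4, by positivity, h1 ?_, h2 ?_⟩ <;> rw [Metric.mem_ball, Real.dist_eq, abs_lt]
      <;> constructor <;> linarith
  have hsub := hI.Icc h1 h2
  have h0 : s - δ ∈ I := hsub ⟨by linarith, by linarith⟩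
  have hst0 : s - δ ≤ t := by linarith
  obtain ⟨R, hR⟩ := isCompact_Icc.exists_bound_of_continuousOn (hz.cont.mono hsub)
  obtain ⟨M, hM⟩ := hD hI hz _ h0 t ht hst0
  obtain ⟨E, hE⟩ : ∃ E, E = ∫ r in (s - 2 * δ)..(t + 2 * δ), ‖Z r‖ ^ 2 := ⟨_, rfl⟩
  obtain ⟨K, hK⟩ : ∃ K, K = 2 * (S.C ^ 2 / (S.c / 8) ^ 3) * R ^ 2 := ⟨_, rfl⟩
  obtain ⟨c₁, hc₁⟩ : ∃ c₁, c₁ = 4 / S.c * ((t - (s - δ)) ^ 2 * (S.C * M ^ 2)) := ⟨_, rfl⟩
  have c0 := S.c0
  have C0 := S.C0
  have hK0 : 0 ≤ K := by rw [hK]; positivity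
  have hc0 : 0 ≤ c₁ := by rw [hc₁]; positivity
  obtain ⟨Γ, hΓ, hP⟩ := hP (K * (E + E))
  obtain ⟨-, hS2, hS3⟩ := hS hI hz.lG
  replace hS3 := (hS3 _ h0 t ht hst0).1
  have ta : Tendsto (fun h : ℝ => |h|) (𝓝[≠] 0) (𝓝 0) := by
    simpa using (continuous_abs.tendsto (0 : ℝ)).mono_left nhdsWithin_le_nhds
  have tm := ((((ta.comp tendsto_fst).add (ta.comp (tendsto_snd (f := 𝓝[≠] (0 : ℝ))))).const_mul
    (c₁ * (M + 4 * E))).add (((hS3.comp tendsto_fst).add (hS3.comp tendsto_snd)).const_mul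
      (8 / S.c))).const_mul Γ
  have hθ : 0 < min (δ ^ 2 * ε ^ 2) (S.c * (δ ^ 2 * ε)) := by positivity
  have hsm := ta.eventually (gt_mem_nhds hδ)
  have hne : ∀ᶠ h : ℝ in 𝓝[≠] 0, h ≠ 0 := self_mem_nhdsWithin
  simp only [add_zero, mul_zero] at tm
  filter_upwards [tm.eventually (gt_mem_nhds hθ),
    (hM.and (hsm.and hne)).prod_mk (hM.and (hsm.and hne))]
  rintro ⟨h, h'⟩ hμ ⟨⟨⟨m1, -⟩, a1, n1⟩, ⟨m2, m3⟩, a2, n2⟩
  simp only [Function.comp] at hμ m1 m2 m3 a1 a2 n1 n2 ⊢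
  obtain ⟨a3, a4⟩ := abs_lt.1 a1
  obtain ⟨a5, a6⟩ := abs_lt.1 a2
  have hM0 : 0 ≤ M := (norm_nonneg _).trans (m1 t ⟨hst0, le_rfl⟩)
  have hJ : Itv ((I ∩ {r | r + h ∈ I}) ∩ (I ∩ {r | r + h' ∈ I})) :=
    (hI.inter (hI.shift h)).inter (hI.inter (hI.shift h'))
  have mJ : ∀ r ∈ Icc (s - δ) t, r ∈ (I ∩ {r | r + h ∈ I}) ∩ (I ∩ {r | r + h' ∈ I}) := fun r hr =>
    ⟨⟨hsub ⟨by linarith [hr.1], by linarith [hr.2]⟩, hsub ⟨by linarith [hr.1], by linarith [hr.2]⟩⟩,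
      hsub ⟨by linarith [hr.1], by linarith [hr.2]⟩, hsub ⟨by linarith [hr.1], by linarith [hr.2]⟩⟩
  have j0 := mJ _ ⟨le_rfl, hst0⟩
  have j1 := mJ _ ⟨hst0, le_rfl⟩
  have L1 := Lin.dq hz h
  have L2 := Lin.dq hz h'
  have L3 := (L1.mono inter_subset_left).sub (L2.mono inter_subset_right)
  have L4 := hW hJ L3 (s - δ)
  have i0 := hz.lZ.ii_sq h0 ht
  have i1 := (hz.lZ.shift h).ii_sq j0.1.2 j1.1.2
  have i2 := (hz.lZ.shift h').ii_sq j0.2.2 j1.2.2
  have i3 := L2.lZ.ii_sq j0.2 j1.2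
  have i4 := ((Loc2.of_cont (hI.inter (hI.shift h)) (hS2 h)).sub
    (hz.lG.mono inter_subset_left)).ii_sq j0.1 j1.1
  have i5 := ((Loc2.of_cont (hI.inter (hI.shift h')) (hS2 h')).sub
    (hz.lG.mono inter_subset_left)).ii_sq j0.2 j1.2
  have b0 := shift_le (h := 0) hz.lZ h1 h2 hst0 (by linarith) (by linarith)
  have b1 := shift_le (h := h) hz.lZ h1 h2 hst0 (by linarith) (by linarith)
  have b2 := shift_le (h := h') hz.lZ h1 h2 hst0 (by linarith) (by linarith)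
  simp only [add_zero] at b0
  rw [← hE] at b0 b1 b2
  have hη : 0 ≤ c₁ * (|h| + |h'|) := by positivity
  obtain ⟨q1, q2⟩ := hP (k := fun r => K * (‖Z (r + h)‖ ^ 2 + ‖Z r‖ ^ 2))
    (m := fun r => c₁ * (|h| + |h'|) * (‖dq h' Z r‖ ^ 2 + 2 * (‖Z (r + h)‖ ^ 2 + ‖Z (r + h')‖ ^ 2)) +
      8 / S.c * (‖stk h (fun r => S.G (Z r)) r - S.G (Z r)‖ ^ 2 +
        ‖stk h' (fun r => S.G (Z r)) r - S.G (Z r)‖ ^ 2))
    hJ L4 c0.le j0 j1 hst0 ((i1.add i0).const_mul _)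
    (((i3.add ((i1.add i2).const_mul _)).const_mul _).add ((i4.add i5).const_mul _))
    (fun r => by positivity) (fun r => by positivity)
    (by
      rw [intervalIntegral.integral_const_mul, intervalIntegral.integral_add i1 i0]
      exact mul_le_mul_of_nonneg_left (add_le_add b1 b0) hK0)
    (by
      filter_upwards [hz.lift, (hz.shift h).lift, (hz.shift h').lift, L2.lift, L4.lift]
        with r e0 e1 e2 e3 e4 hr
      have hr' := Ioo_subset_Icc_self hr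
      have jr := mJ r hr'
      replace e0 := e0 jr.1.1
      replace e1 := e1 jr.1.2
      replace e2 := e2 jr.2.2
      replace e3 := e3 jr.2
      replace e4 := e4 jr
      refine (pt S (Z (r + h)) (Z (r + h')) (Z r) _ h h' (r - (s - δ)) rfl rfl rfl).trans ?_
      refine add_le_add (add_le_add le_rfl ?_) ?_
      · refine mul_le_mul ?_ (le_of_eq (congrArg (fun x => ‖x‖ ^ 2) e4)) (by positivity)
          (by positivity)
        have r1 := hR (r + h) ⟨by linarith [hr.1], by linarith [hr.2]⟩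
        have r0 := hR r ⟨by linarith [hr.1], by linarith [hr.2]⟩
        rw [hK, mul_assoc _ (R ^ 2), e0, e1, mul_add (R ^ 2), mul_pow, mul_pow]
        gcongr
      · have u1 : ∀ k, r + k ∈ I → adj S.ι (dq k z r) = stk k (fun r => S.G (Z r)) r := fun k hk => by
          rw [dq, stk, map_smul, map_sub, hz.eq r jr.1.1 _ hk]
        have u2 := sq_sub (stk h (fun r => S.G (Z r)) r - S.G (Z r))
          (stk h' (fun r => S.G (Z r)) r - S.G (Z r))
        rw [sub_sub_sub_cancel_right, ← u1 h jr.1.2, ← u1 h' jr.2.2, ← map_sub, u1 h jr.1.2,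
          u1 h' jr.2.2] at u2
        have u3 : ‖S.ι (Z (r + h) - Z (r + h'))‖ ≤ (|h| + |h'|) * M := by
          have : S.ι (Z (r + h) - Z (r + h')) = h • dq h z r - h' • dq h' z r := by
            rw [map_sub, e1, e2, dq, dq, smul_inv_smul₀ n1, smul_inv_smul₀ n2,
              sub_sub_sub_cancel_right]
          rw [this, add_mul]
          refine (norm_sub_le _ _).trans ?_
          rw [norm_smul, norm_smul, Real.norm_eq_abs, Real.norm_eq_abs]
          have := m1 r hr'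
          have := m2 r hr'
          gcongr
        have u4 := S.lad (dq h' Z r) (Z (r + h) - Z (r + h'))
        have u5 := sq_sub (Z (r + h)) (Z (r + h'))
        have u6 : ‖dq h' Z r‖ * ‖Z (r + h) - Z (r + h')‖ ≤
            ‖dq h' Z r‖ ^ 2 + 2 * (‖Z (r + h)‖ ^ 2 + ‖Z (r + h')‖ ^ 2) := by
          nlinarith [sq_nonneg (‖dq h' Z r‖ - ‖Z (r + h) - Z (r + h')‖), sq_nonneg ‖dq h' Z r‖,
            sq_nonneg ‖Z (r + h) - Z (r + h')‖]
        have u7 : ‖S.B (dq h' Z r) (Z (r + h) - Z (r + h'))‖ ^ 2 ≤ S.C * (M * ((|h| + |h'|) * M) *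
            (‖dq h' Z r‖ ^ 2 + 2 * (‖Z (r + h)‖ ^ 2 + ‖Z (r + h')‖ ^ 2))) := by
          refine u4.trans (mul_le_mul_of_nonneg_left ?_ C0)
          rw [mul_mul_mul_comm, e3]
          have := m2 r hr'
          gcongr
        have u8 : (r - (s - δ)) ^ 2 ≤ (t - (s - δ)) ^ 2 :=
          pow_le_pow_left₀ (sub_nonneg.2 hr'.1) (by linarith [hr.2]) 2
        have u9 := mul_le_mul u8 u7 (by positivity) (by positivity)
        refine (mul_le_mul_of_nonneg_left (add_le_add u9 u2) (by positivity)).trans (le_of_eq ?_)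
        rw [hc₁]
        ring)
  rw [intervalIntegral.integral_add ((i3.add ((i1.add i2).const_mul _)).const_mul _)
    ((i4.add i5).const_mul _), intervalIntegral.integral_const_mul,
    intervalIntegral.integral_const_mul, intervalIntegral.integral_add i4 i5,
    intervalIntegral.integral_add i3 ((i1.add i2).const_mul _),
    intervalIntegral.integral_const_mul, intervalIntegral.integral_add i1 i2, sub_self, zero_smul,
    norm_zero, zero_pow two_ne_zero, zero_add] at q1 q2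
  have b3 := mul_le_mul_of_nonneg_left (add_le_add m3 (mul_le_mul_of_nonneg_left (add_le_add b1 b2)
    zero_le_two)) (mul_nonneg hΓ hη)
  obtain ⟨v1, v2⟩ := lt_min_iff.1 hμ
  have wt : ∀ r, s ≤ r → δ ^ 2 ≤ (r - (s - δ)) ^ 2 := fun r hr =>
    pow_le_pow_left₀ hδ.le (by linarith) 2
  refine ⟨fun r hr => ?_, ?_⟩
  · have := q1 r ⟨by linarith [hr.1], hr.2⟩
    rw [norm_smul, mul_pow, Real.norm_eq_abs, sq_abs] at this
    refine (pow_le_pow_iff_left₀ (norm_nonneg _) hε.le two_ne_zero).1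
      (le_of_mul_le_mul_left ?_ (pow_pos hδ 2))
    linarith [mul_le_mul_of_nonneg_right (wt r hr.1) (sq_nonneg ‖dq h z r - dq h' z r‖)]
  · have js := mJ s ⟨by linarith, hst⟩
    have w1 := intervalIntegral.integral_mono_interval (show s - δ ≤ s by linarith) hst le_rfl
      (Eventually.of_forall fun _ => sq_nonneg _) (L4.lZ.ii_sq j0 j1)
    have w2 := intervalIntegral.integral_mono_on hst ((L3.lZ.ii_sq js j1).const_mul (δ ^ 2))
      (L4.lZ.ii_sq js j1) fun r hr => by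
        rw [norm_smul, mul_pow, Real.norm_eq_abs, sq_abs]
        exact mul_le_mul_of_nonneg_right (wt r hr.1) (sq_nonneg _)
    rw [intervalIntegral.integral_const_mul] at w2
    refine le_of_mul_le_mul_left (le_of_mul_le_mul_left ?_ c0) (pow_pos hδ 2)
    linarith [mul_le_mul_of_nonneg_left (w2.trans w1) c0.le]

end Pool.Agent.MP_ed9623_an.H77
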